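import Mathlib
import Pool.Graph.R_seed8.TH497.PW.IntFlow
import Pool.Graph.R_seed8.TH362.FP.Pos
import Pool.Agent.H90.BW.Sparse

set_option autoImplicit false

/-!
# Nowhere-zero 5-flows: branch decompositions with middle sets which are not sparse (MP_974d84_co)

Let `G` be a bridgeless multigraph with a branch decomposition such that any `20` vertices of a
middle set include all vertices of a circuit of `G` with `2, ..., 11` edges (for example: such that
all middle sets have at most `19` vertices, that is branchwidth at most `19`).  Then `G` has a
nowhere-zero 5-flow, and the characteristic polynomial of its bond matroid is positive at all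
integers `q ≥ 5`.  There is no condition on the degrees, on the connectivity, on the number of
vertices or on the size of the middle sets.  (The library, `MP_974d84_co.SparseWidths`, has the same
with `19` in the place of `20`, so branchwidth at most 18.)

Proof.  The class is closed under contractions.  In a counterexample with as few edges as possible
there are no circuits with at most eleven edges (library `Y335/FL`, `R129/Tia`); so the middle sets
have at most 19 vertices.  Graphs with a branch decomposition of width at most 19 are closed under
minors.  By the library a minimal counterexample has girth at least twelve and every vertex has at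
least three neighbours; so it has at least 126 vertices and at least 189 edges.

(1) A Moore bound for irregular graphs (`H90/BW/Ahl2`).  Let `H` be a graph with `n` vertices, `m`
edges, minimum degree at least two and girth at least twelve.  The bound of Alon, Hoory and Linial
says `n ≥ 2 ∑_{i<6} (d - 1) ^ i`, `d` the average degree.  Here `d - 1` is replaced by the larger
number `8 ^ ((m - n) / m)`: it bounds the geometric mean of `deg - 1` over the darts, since
`(k - 1) ^ k ≥ 8 ^ (k - 2)` for all INTEGERS `k ≥ 2`.  Consequently `n ≤ 73` and `m ≥ n + 5` imply
`2 m + 19 < 3 n` (`H90/BW/Ex`); the original bound does not give this for `(n, m) = (29, 34)` and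
`(73, 100)`.

(2) Let `A` be a set of edges, at least 51 and at most 100, such that at most 19 vertices are ends of
an edge in `A` and of an edge outside `A`.  The other ends of edges in `A` have at least three edges
in `A`.  After the deletion of the vertices of degree at most one this contradicts (1).

(3) By induction all sets of labels of subtrees have at most 50 edges: the union of two such sets
has at most 100 edges, and hence at most 50 edges by (2).  This is a contradiction for the whole
tree.
-/

namespace Pool.Agent.Results.MP_974d84_co.BranchMiddleSets

open Pool.Agent.TH497.PW Pool.Agent.H90.BW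

variable {V E : Type}

/-- The edges with exactly one end in `X`. -/
def boundary [DecidableEq V] [Fintype E] (src dst : E → V) (X : Finset V) : Finset E :=
  Finset.univ.filter (fun e => ¬ (src e ∈ X ↔ dst e ∈ X))

/-- Kirchhoff's law. -/
def IsFlow [DecidableEq V] [Fintype E] (src dst : E → V) (f : E → ℤ) : Prop :=
  ∀ v : V, ∑ e ∈ Finset.univ.filter (fun e => src e = v), f e
    = ∑ e ∈ Finset.univ.filter (fun e => dst e = v), f e

/-- The number of the components of the graph with the vertices `V` and the edges `A`. -/
noncomputable def components (src dst : E → V) (A : Finset E) : ℕ :=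
  Nat.card (SimpleGraph.fromRel
    (fun u v : V => ∃ e ∈ A, src e = u ∧ dst e = v)).ConnectedComponent

/-- The rank of `A` in the cycle matroid of the graph. -/
noncomputable def cycleRank [Fintype V] (src dst : E → V) (A : Finset E) : ℕ :=
  Fintype.card V - components src dst A

/-- The rank of `A` in the bond matroid of the graph (the dual of the cycle matroid). -/
noncomputable def bondRank [Fintype V] [Fintype E] [DecidableEq E] (src dst : E → V)
    (A : Finset E) : ℕ :=
  A.card + cycleRank src dst Aᶜ - cycleRank src dst Finset.univ

/-- The characteristic polynomial of the bond matroid at the integer `x`. -/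
noncomputable def bondCharPoly [Fintype V] [Fintype E] [DecidableEq E] (src dst : E → V)
    (x : ℤ) : ℤ :=
  ∑ A : Finset E, (-1) ^ A.card * x ^ (bondRank src dst Finset.univ - bondRank src dst A)

/-- The edge `e` joins `x` and `y`. -/
def Joins (src dst : E → V) (e : E) (x y : V) : Prop :=
  (src e = x ∧ dst e = y) ∨ (src e = y ∧ dst e = x)

/-- All vertices of some circuit with `k + 2 = 2, ..., 11` edges are in `S`: the vertices `v i` are
distinct, the edges `e i` are distinct, and `e i` joins `v i` and `v (i + 1)` (modulo `k + 2`). -/
def HasShortCircuit (src dst : E → V) (S : Finset V) : Prop :=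
  ∃ k, k ≤ 9 ∧ ∃ (v : Fin (k + 2) → V) (e : Fin (k + 2) → E), Function.Injective v ∧
    Function.Injective e ∧ ∀ i, v i ∈ S ∧ Joins src dst (e i) (v i) (v (i + 1))

/-- Any `n` vertices in `B` include all vertices of a circuit with `2, ..., 11` edges.  (Sets with
fewer than `n` vertices have this property.) -/
def NotSparse (src dst : E → V) (n : ℕ) (B : Finset V) : Prop :=
  ∀ S ⊆ B, S.card = n → HasShortCircuit src dst S

/-- The binary tree `t`, whose leaves are labelled by edges, is a (rooted) branch decomposition: every
edge is a label, and any `n` vertices of a middle set include all vertices of a circuit with at most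
eleven edges.  The middle set of the set `A` of the labels of a subtree consists of the vertices which
are ends of an edge in `A` and of an edge outside `A` (loops are disregarded, see
`Pool.Agent.H90.BW.mid`). -/
def IsBranchDecomposition [Fintype V] [DecidableEq V] [Fintype E] [DecidableEq E]
    (src dst : E → V) (n : ℕ) (t : BTree E) : Prop :=
  t.labels = Finset.univ ∧ t.All (fun A => NotSparse src dst n (mid src dst A))

theorem isFlow_iff [DecidableEq V] [Fintype E] (src dst : E → V) (f : E → ℤ) :
    IsFlow src dst f ↔
      ∀ v, ∑ e, f e * ((if src e = v then 1 else 0) - (if dst e = v then 1 else 0)) = 0 := by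
  unfold IsFlow
  refine forall_congr' fun v => ?_
  rw [Finset.sum_filter, Finset.sum_filter, ← sub_eq_zero, ← Finset.sum_sub_distrib]
  have : ∀ e, (if src e = v then f e else 0) - (if dst e = v then f e else 0)
      = f e * ((if src e = v then 1 else 0) - (if dst e = v then 1 else 0)) := by
    intro e
    by_cases h1 : src e = v <;> by_cases h2 : dst e = v <;> simp [h1, h2]
  rw [Finset.sum_congr rfl (fun e _ => this e)]

theorem nzf [Fintype V] [DecidableEq V] [Fintype E] [DecidableEq E] (src dst : E → V)
    (h : Pool.Agent.TH676.Z.FlowOn src dst ∅ ∅) : NZF src dst := by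
  obtain ⟨f, h1, _, h3⟩ := h
  refine ⟨f, fun e => h3 e (Finset.notMem_empty _) (Finset.notMem_empty _), fun x => ?_⟩
  rw [← h1 x]
  unfold Pool.Agent.TH676.Z.bd
  refine Finset.sum_congr rfl fun e _ => ?_
  unfold ic
  by_cases h4 : src e = x <;> by_cases h5 : dst e = x <;> simp [h4, h5]

theorem charPoly_pos [Fintype V] [DecidableEq V] [Fintype E] [DecidableEq E] (src dst : E → V)
    (f : E → ℤ) (h1 : IsFlow src dst f) (h2 : ∀ e, 1 ≤ |f e| ∧ |f e| ≤ 4) (q : ℕ) (hq : 5 ≤ q) :
    0 < bondCharPoly src dst q :=
  Pool.Agent.TH362.FP.chr_pos src dst f h2 h1 q hq

/-- **Theorem.** Let `G` be a finite multigraph (loops and parallel edges allowed), given by the ends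
`src e`, `dst e` of each edge `e`, without an edge cut consisting of exactly one edge.  If `G` has a
branch decomposition such that any 20 vertices of a middle set include all vertices of a circuit with
`2, ..., 11` edges, then `G` has an integer flow with values in `{±1, ±2, ±3, ±4}`, and the
characteristic polynomial of the bond matroid of `G` is positive at all integers `q ≥ 5`. -/
theorem result :
    ∀ (V E : Type) [Fintype V] [DecidableEq V] [Fintype E] [DecidableEq E] (src dst : E → V)
      (t : BTree E), IsBranchDecomposition src dst 20 t →
      (∀ Y : Finset V, (boundary src dst Y).card ≠ 1) →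
      (∃ f : E → ℤ, IsFlow src dst f ∧ ∀ e, 1 ≤ |f e| ∧ |f e| ≤ 4) ∧
      ∀ q : ℕ, 5 ≤ q → 0 < bondCharPoly src dst q := by
  intro V E _ _ _ _ src dst t ht hb
  have hfl := Sp.flow_branch (src := src) (dst := dst) ⟨t, fun e => ht.1 ▸ Finset.mem_univ e,
    BTree.All.mono (fun A h => Sp.spw h) t ht.2⟩
    (fun Y _ => by rw [Finset.sdiff_empty]; exact hb Y)
  obtain ⟨F, hF, hF0⟩ := int_flow src dst (nzf src dst hfl)
  have hF1 := (isFlow_iff src dst F).mpr hF0
  exact ⟨⟨F, hF1, hF⟩, fun q hq => charPoly_pos src dst F hF1 hF q hq⟩

/-- Branchwidth at most 19. -/
theorem width (V E : Type) [Fintype V] [DecidableEq V] [Fintype E] [DecidableEq E]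
    (src dst : E → V) (t : BTree E) (ht : t.labels = Finset.univ)
    (hw : t.All (fun A => (mid src dst A).card ≤ 19))
    (hb : ∀ Y : Finset V, (boundary src dst Y).card ≠ 1) :
    (∃ f : E → ℤ, IsFlow src dst f ∧ ∀ e, 1 ≤ |f e| ∧ |f e| ≤ 4) ∧
      ∀ q : ℕ, 5 ≤ q → 0 < bondCharPoly src dst q :=
  result V E src dst t ⟨ht, BTree.All.mono (fun A h S hS hc => by
    have := Finset.card_le_card hS
    omega) t hw⟩ hb

end Pool.Agent.Results.MP_974d84_co.BranchMiddleSets
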