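import Mathlib
import Pool.Agent.H584.CF.Main

set_option autoImplicit false
set_option linter.unusedSectionVars false

/-!
# Circular flows and the packing number of the cuts with three edges (MP_974d84_co)

Let `G` be a bridgeless multigraph in which at most `t` pairwise disjoint vertex sets have pairwise
different boundaries with exactly three edges (for instance, `G` has at most `t` vertices of odd
degree, or at most `t` edge cuts with exactly three edges). If `t ≥ 4` then `G` has a circular
`6 t / (t + 2)`-flow; if `t ≤ 3` then `G` has a circular `(4 - 2 / n)`-flow, where `n` is the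
number of vertices. The reason is a partition criterion in which only the partitions with a
3-edge-connected quotient count.
-/

namespace Pool.Agent.Results.MP_974d84_co.CircularFlowsThreeCuts

/-- The boundary of the vertex set `X`: the edges with exactly one end in `X`. -/
def boundary {V E : Type} (src dst : E → V) (X : Set V) : Set E :=
  {e : E | ¬ (src e ∈ X ↔ dst e ∈ X)}

/-- The degree of the vertex `v`; loops count twice. -/
noncomputable def degree {V E : Type} (src dst : E → V) (v : V) : ℕ :=
  Nat.card {e : E // src e = v} + Nat.card {e : E // dst e = v}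

open Classical in
/-- A circular `r`-flow: a real flow with `1 ≤ |f e| ≤ r - 1` for all edges `e`. -/
def CircularFlow {V E : Type} [Fintype E] (src dst : E → V) (r : ℝ) : Prop :=
  ∃ f : E → ℝ, (∀ e, 1 ≤ |f e| ∧ |f e| ≤ r - 1) ∧
    ∀ v : V, ∑ e : E, (if src e = v then f e else 0) = ∑ e : E, (if dst e = v then f e else 0)

/-- There are at most `t` pairwise disjoint vertex sets with pairwise different boundaries with
exactly three edges. -/
def PackingAtMost {V E : Type} (src dst : E → V) (t : ℕ) : Prop :=
  ∀ X : Fin (t + 1) → Set V, (∀ i j, i ≠ j → Disjoint (X i) (X j)) →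
    (∀ i j, i ≠ j → boundary src dst (X i) ≠ boundary src dst (X j)) →
    ∃ i, (boundary src dst (X i)).ncard ≠ 3

/-- Every partition of the vertex set into `k` nonempty classes, for which the union of any classes
(not all, at least one) has at least three boundary edges, has at least `(a / b) (k - 1)` edges
between different classes. -/
def PartitionBound {V E : Type} (src dst : E → V) (a b : ℕ) : Prop :=
  ∀ (k : ℕ) (π : V → Fin k), Function.Surjective π →
    (∀ I : Set (Fin k), I.Nonempty → I ≠ Set.univ →
      3 ≤ (boundary src dst {v | π v ∈ I}).ncard) →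
    a * k ≤ b * Nat.card {e : E // π (src e) ≠ π (dst e)} + a

section

open Pool.Agent.H239R2.Cover (bdry bdry_apply ecut mem_ecut)
open Pool.Agent.H584.CF

variable {V E : Type} [Fintype V] [DecidableEq V] [Fintype E] [DecidableEq E]

theorem boundary_eq (src dst : E → V) (X : Finset V) :
    boundary src dst (X : Set V) = (ecut src dst X : Set E) := by
  classical
  ext e
  rw [Finset.mem_coe, mem_ecut]
  rfl

theorem boundary_card (src dst : E → V) (X : Finset V) :
    (boundary src dst (X : Set V)).ncard = (ecut src dst X).card := by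
  rw [boundary_eq, Set.ncard_coe_finset]

theorem circularFlow_of (src dst : E → V) (r c : ℝ) (hc : c ≤ r - 1)
    (h : ∃ f : E → ℝ, (∀ e, 1 ≤ |f e| ∧ |f e| ≤ c) ∧ bdry ℝ src dst f = 0) :
    CircularFlow src dst r := by
  classical
  obtain ⟨f, hf, hf0⟩ := h
  refine ⟨f, fun e => ⟨(hf e).1, (hf e).2.trans hc⟩, fun v => ?_⟩
  have h1 := congrFun hf0 v
  rw [bdry_apply, Pi.zero_apply] at h1
  rw [← sub_eq_zero, ← Finset.sum_sub_distrib]
  refine Eq.trans (Finset.sum_congr rfl fun e _ => ?_) h1
  by_cases h2 : src e = v <;> by_cases h3 : dst e = v <;> simp [h2, h3]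

theorem atMost_of (src dst : E → V) (t : ℕ) (h : PackingAtMost src dst t) :
    AtMost src dst t := by
  intro X hX hX'
  obtain ⟨i, hi⟩ := h (fun i => (X i : Set V)) (fun i j hij => by
    rw [Finset.disjoint_coe]
    exact hX i j hij) (fun i j hij hcon => by
    rw [boundary_eq, boundary_eq] at hcon
    exact hX' i j hij (Finset.coe_injective hcon))
  exact ⟨i, fun hcon => hi (by rw [boundary_card]; exact hcon)⟩

theorem packing_of (src dst : E → V) (t : ℕ) (h : AtMost src dst t) :
    PackingAtMost src dst t := by
  classical
  intro X hX hX'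
  have h0 : ∀ i, boundary src dst (X i) = (ecut src dst (X i).toFinset : Set E) := by
    intro i
    rw [← boundary_eq, Set.coe_toFinset]
  obtain ⟨i, hi⟩ := h (fun i => (X i).toFinset) (fun i j hij => by
    rw [Set.disjoint_toFinset]
    exact hX i j hij) (fun i j hij hcon => by
    apply hX' i j hij
    rw [h0, h0, hcon])
  refine ⟨i, fun hcon => hi ?_⟩
  rw [h0, Set.ncard_coe_finset] at hcon
  exact hcon

theorem part_of (src dst : E → V) (a b : ℕ) (h : PartitionBound src dst a b) :
    Part src dst a b := by
  classical
  intro k π hπ hc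
  have h1 := h k π hπ (fun I hI hIu => by
    have h2 := hc I.toFinset (by simpa using hI) (by
      intro hcon
      apply hIu
      rw [← Set.coe_toFinset I, hcon, Finset.coe_univ])
    rw [← boundary_card] at h2
    convert h2 using 3
    ext v
    simp)
  rw [Nat.card_eq_fintype_card, Fintype.card_subtype] at h1
  convert h1 using 3

theorem degree_eq (src dst : E → V) (v : V) : degree src dst v = deg src dst v := by
  classical
  rw [degree, deg, Nat.card_eq_fintype_card, Nat.card_eq_fintype_card, Fintype.card_subtype,
    Fintype.card_subtype]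

/-- At most `t` edge cuts with exactly three edges. -/
theorem packing_of_cuts (src dst : E → V) (t : ℕ)
    (h : {C : Set E | C.ncard = 3 ∧ ∃ X : Set V, C = boundary src dst X}.ncard ≤ t) :
    PackingAtMost src dst t := by
  classical
  intro X _ hX'
  by_contra hcon
  push Not at hcon
  have hinj : Function.Injective (fun i => boundary src dst (X i)) := by
    intro i j hij
    by_contra hne
    exact hX' i j hne hij
  have h1 : Set.range (fun i => boundary src dst (X i)) ⊆
      {C : Set E | C.ncard = 3 ∧ ∃ X : Set V, C = boundary src dst X} := by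
    rintro C ⟨i, rfl⟩
    exact ⟨hcon i, X i, rfl⟩
  have h2 := Set.ncard_le_ncard h1 (Set.toFinite _)
  rw [← Set.image_univ, Set.ncard_image_of_injective _ hinj, Set.ncard_univ, Nat.card_eq_fintype_card,
    Fintype.card_fin] at h2
  omega

end

open Classical in
/-- **Circular flows and disjoint cuts with three edges.** -/
theorem result :
    ∀ (V E : Type) [Fintype V] [Fintype E] (src dst : E → V),
      (∀ X : Set V, (boundary src dst X).ncard ≠ 1) →
      (∀ t : ℕ, 4 ≤ t → PackingAtMost src dst t →
        CircularFlow src dst (6 * (t : ℝ) / (t + 2))) ∧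
      (PackingAtMost src dst 3 → CircularFlow src dst (4 - 2 / (Nat.card V : ℝ))) ∧
      (∀ t : ℕ, Nat.card {v : V // Odd (degree src dst v)} ≤ t → PackingAtMost src dst t) ∧
      (∀ t : ℕ, {C : Set E | C.ncard = 3 ∧ ∃ X : Set V, C = boundary src dst X}.ncard ≤ t →
        PackingAtMost src dst t) ∧
      (∀ a b : ℕ, 0 < b → b < a → PartitionBound src dst a b →
        CircularFlow src dst (2 * (a : ℝ) / (a - b))) := by
  intro V E _ _ src dst hbr
  have hbr' : ∀ X : Finset V, (Pool.Agent.H239R2.Cover.ecut src dst X).card ≠ 1 := by
    intro X hX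
    apply hbr (X : Set V)
    rw [boundary_card]
    exact hX
  rcases isEmpty_or_nonempty V with hV | hV
  · have hcf : ∀ r : ℝ, CircularFlow src dst r := fun r =>
      ⟨fun _ => 1, fun e => (hV.false (src e)).elim, fun v => (hV.false v).elim⟩
    refine ⟨fun t _ _ => hcf _, fun _ => hcf _, fun t ht => ?_,
      fun t ht => packing_of_cuts src dst t ht, fun a b _ _ _ => hcf _⟩
    apply packing_of
    apply Pool.Agent.H584.CF.atMost_of_odd
    have : (Finset.univ : Finset V) = ∅ := Finset.univ_eq_empty
    rw [this]
    simp
  obtain ⟨N, hN⟩ : ∃ N, Fintype.card V = N + 1 :=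
    ⟨Fintype.card V - 1, by have := Fintype.card_pos (α := V); omega⟩
  have hmain : ∀ a b : ℕ, 0 < b → b < a → Pool.Agent.H584.CF.Part src dst a b →
      ∀ r : ℝ, ((a : ℝ) + b) / (a - b) ≤ r - 1 → CircularFlow src dst r := by
    intro a b hb hab hP r hr
    exact circularFlow_of src dst r _ hr
      (Pool.Agent.H584.CF.main a b hb hab N V E src dst hN hbr' hP)
  refine ⟨?_, ?_, ?_, fun t ht => packing_of_cuts src dst t ht, ?_⟩
  · intro t ht hT
    obtain ⟨s, rfl⟩ : ∃ s, t = s + 4 := ⟨t - 4, by omega⟩
    refine hmain (3 * (s + 4)) (2 * (s + 3)) (by omega) (by omega)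
      (Pool.Agent.H584.CF.part_of_few src dst s (atMost_of src dst _ hT)) _ (le_of_eq ?_)
    push_cast
    have h1 : (0:ℝ) < (s:ℝ) + 6 := by positivity
    have h2 : 3 * ((s:ℝ) + 4) - 2 * (s + 3) = s + 6 := by ring
    have h3 : (s:ℝ) + 4 + 2 = s + 6 := by ring
    rw [h2, h3, div_eq_iff h1.ne', sub_mul, div_mul_cancel₀ _ h1.ne']
    ring
  · intro hT
    rw [Nat.card_eq_fintype_card, hN]
    rcases Nat.eq_zero_or_pos N with h0 | h0
    · subst h0
      have hsub : Subsingleton V := by
        rw [← Fintype.card_le_one_iff_subsingleton]; omega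
      refine ⟨fun _ => 1, fun e => ?_, fun v => ?_⟩
      · rw [abs_one]
        norm_num
      · refine Finset.sum_congr rfl fun e _ => ?_
        rw [Subsingleton.elim (src e) (dst e)]
    · refine hmain (4 * N + 2) (2 * N) (by omega) (by omega)
        (Pool.Agent.H584.CF.part_of_few' src dst N (atMost_of src dst _ hT) hN) _ (le_of_eq ?_)
      push_cast
      have h1 : (0:ℝ) < (N:ℝ) + 1 := by positivity
      have h2 : 4 * (N:ℝ) + 2 - 2 * N = 2 * (N + 1) := by ring
      rw [h2]
      field_simp
      ring
  · intro t ht
    apply packing_of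
    apply Pool.Agent.H584.CF.atMost_of_odd
    refine le_trans (le_of_eq ?_) ht
    rw [Nat.card_eq_fintype_card, Fintype.card_subtype]
    congr 1
    ext v
    rw [Finset.mem_filter, Finset.mem_filter, degree_eq]
  · intro a b hb hab hP
    refine hmain a b hb hab (part_of src dst a b hP) _ (le_of_eq ?_)
    have h1 : (0:ℝ) < (a:ℝ) - b := by
      have : (b:ℝ) < a := by exact_mod_cast hab
      linarith
    field_simp
    ring

end Pool.Agent.Results.MP_974d84_co.CircularFlowsThreeCuts
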