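import Mathlib
import Pool.Graph.R_seed8.TH497.PW.IntFlow
import Pool.Graph.R_seed8.TH362.FP.Pos
import Pool.Graph.R_seed8.Helper335.Rel.Main
import Pool.Agent.H14.F5.Tri

set_option autoImplicit false

/-!
# Cographic matroids of rank at most 68, or with at most 135 triangles (MP_974d84_co)

Let `M` be the bond matroid of a bridgeless multigraph `G` (a loopless cographic matroid).  If the rank
of `M` is at most 68, or if `M` has at most 135 circuits with three elements, then the characteristic
polynomial of `M` is positive at all integers `q ≥ 5`, and `G` has a nowhere-zero 5-flow.  (The bound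
of the library for the rank is 63, the limit of the girth method, from the 126 vertices of the
12-cage.)

More generally let `F` be the union of a chain of cycles of `G` (unions of cocircuits of `M`) each of
which has at most eleven elements outside of the union of the earlier ones; then it is sufficient that
the matroid `M \ F`, the bond matroid of the graph `G / F`, has rank at most 68 or at most 135
circuits with three elements.  So the rank of `M`, its number of elements and its number of triangles
are not bounded.

Proof.  The edges of `F` are contracted.  Let `H` be a quotient of `G / F` without nowhere-zero 5-flow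
all of whose proper quotients have such flows.  By the library `H` has girth at least twelve, all
degrees are at least three, and `H` is sparse (`N410/FV`).

(1) `H` has at least 136 vertices of degree three (`H14/F5/Main`): if `H` is cubic with at most 134
vertices then the paths of length at most five which begin at the ends of an edge reach 126 vertices
and show that the deletion of eight vertices leaves a bipartite graph, and by the Moore bound `H` is
cyclically 9-edge-connected; so `H` has a `1/2`-flow-pair by the library theorem
`OddCircuitTransversals` and a nowhere-zero 5-flow, a contradiction; the case of larger degrees is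
done by counting.

(2) The edges at these vertices are edge cuts of `G / F` with three edges, and they are different
since `H` has no parallel edges (`H14/F5/Tri`); so `M \ F` has at least 136 triangles.

(3) A graph whose bond matroid has rank at most 68 has at most 135 vertices of odd degree, and every
class of vertices which becomes a vertex of degree three of `H` contains one of them.
-/

namespace Pool.Agent.Results.MP_974d84_co.CographicRank68

open Pool.Agent.TH497.PW

variable {V E W : Type}

/-- The edges with exactly one end in `Y`. -/
def boundary [DecidableEq V] [Fintype E] (src dst : E → V) (Y : Finset V) : Finset E :=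
  Finset.univ.filter (fun e => ¬ (src e ∈ Y ↔ dst e ∈ Y))

/-- Kirchhoff's law. -/
def IsFlow [DecidableEq V] [Fintype E] (src dst : E → V) (f : E → ℤ) : Prop :=
  ∀ v : V, ∑ e ∈ Finset.univ.filter (fun e => src e = v), f e
    = ∑ e ∈ Finset.univ.filter (fun e => dst e = v), f e

/-- `C` is a cycle: the support of an integer flow with the values `0`, `1` and `-1`. -/
def IsCycle [DecidableEq V] [Fintype E] (src dst : E → V) (C : Finset E) : Prop :=
  ∃ z : E → ℤ, IsFlow src dst z ∧ (∀ e, z e = 0 ∨ z e = 1 ∨ z e = -1) ∧ ∀ e, z e ≠ 0 ↔ e ∈ C

/-- The map `r` identifies only vertices which are joined by a path with edges in `F`; if `r` is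
the map to the components of the graph `(V, F)` then `r ∘ src`, `r ∘ dst` is the graph `G / F` (with
the edges in `F` as loops). -/
def JoinedIn (src dst : E → V) (F : Finset E) (r : V → W) : Prop :=
  ∀ x y, r x = r y → (SimpleGraph.fromRel
    (fun u v : V => ∃ e ∈ F, src e = u ∧ dst e = v)).Reachable x y

/-- The number of the connected components of the graph with the vertices `V` and the edges `A`. -/
noncomputable def components (src dst : E → V) (A : Finset E) : ℕ :=
  Nat.card (SimpleGraph.fromRel
    (fun u v : V => ∃ e ∈ A, src e = u ∧ dst e = v)).ConnectedComponent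

/-- The rank of `A` in the cycle matroid of the graph. -/
noncomputable def cycleRank [Fintype V] (src dst : E → V) (A : Finset E) : ℕ :=
  Fintype.card V - components src dst A

/-- The rank of `A` in the bond matroid of the graph, the dual of the cycle matroid:
`|A| + r(E \ A) - r(E)`. -/
noncomputable def bondRank [Fintype V] [Fintype E] [DecidableEq E] (src dst : E → V)
    (A : Finset E) : ℕ :=
  A.card + cycleRank src dst Aᶜ - cycleRank src dst Finset.univ

/-- The characteristic polynomial of the bond matroid at the integer `x`,
`∑ (-1)^|A| x^(r*(E) - r*(A))`. -/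
noncomputable def bondCharPoly [Fintype V] [Fintype E] [DecidableEq E] (src dst : E → V)
    (x : ℤ) : ℤ :=
  ∑ A : Finset E, (-1) ^ A.card * x ^ (bondRank src dst Finset.univ - bondRank src dst A)

/-- The edges which are not loops. -/
def properEdges [DecidableEq V] [Fintype E] (src dst : E → V) : Finset E :=
  Finset.univ.filter (fun e => src e ≠ dst e)

/-- The edge cuts with exactly three edges.  If the graph has no bridge then these are the circuits
with three elements of its bond matroid: a boundary is a disjoint union of circuits of the bond
matroid, which have at least two elements. -/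
def triangles [DecidableEq V] [Fintype E] (src dst : E → V) : Set (Finset E) :=
  {A | A.card = 3 ∧ ∃ Y : Finset V, boundary src dst Y = A}

theorem isFlow_iff [DecidableEq V] [Fintype E] (src dst : E → V) (f : E → ℤ) :
    IsFlow src dst f ↔
      ∀ v, ∑ e, f e * ((if src e = v then 1 else 0) - (if dst e = v then 1 else 0)) = 0 := by
  unfold IsFlow
  refine forall_congr' fun v => ?_
  rw [Finset.sum_filter, Finset.sum_filter, ← sub_eq_zero, ← Finset.sum_sub_distrib]
  have : ∀ e, (if src e = v then f e else 0) - (if dst e = v then f e else 0)
      = f e * ((if src e = v then 1 else 0) - (if dst e = v then 1 else 0)) := by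
    intro e
    by_cases h1 : src e = v <;> by_cases h2 : dst e = v <;> simp [h1, h2]
  rw [Finset.sum_congr rfl (fun e _ => this e)]

theorem nzf [Fintype V] [DecidableEq V] [Fintype E] [DecidableEq E] (src dst : E → V)
    (h : Pool.Agent.TH676.Z.FlowOn src dst ∅ ∅) : NZF src dst := by
  obtain ⟨f, h1, _, h3⟩ := h
  refine ⟨f, fun e => h3 e (Finset.notMem_empty _) (Finset.notMem_empty _), fun x => ?_⟩
  rw [← h1 x]
  unfold Pool.Agent.TH676.Z.bd
  refine Finset.sum_congr rfl fun e _ => ?_
  unfold ic
  by_cases h4 : src e = x <;> by_cases h5 : dst e = x <;> simp [h4, h5]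

/-- the reduction modulo five of a flow with values in `{0, 1, -1}` -/
theorem mod5 [Fintype V] [DecidableEq V] [Fintype E] [DecidableEq E] (src dst : E → V)
    (C : Finset E) (h : IsCycle src dst C) :
    ∃ z : E → ZMod 5, (∀ v, Pool.Agent.TH676.Z.bd src dst z v = 0) ∧
      (∀ e, z e = 0 ∨ z e = 1 ∨ z e = -1) ∧ ∀ e, z e ≠ 0 ↔ e ∈ C := by
  obtain ⟨z, h1, h2, h3⟩ := h
  refine ⟨fun e => ((z e : ℤ) : ZMod 5), fun v => ?_, fun e => ?_, fun e => ?_⟩
  · have h4 := h1 v
    rw [Finset.sum_filter, Finset.sum_filter, ← sub_eq_zero, ← Finset.sum_sub_distrib] at h4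
    have h5 := congrArg (fun t : ℤ => (t : ZMod 5)) h4
    simp only [Int.cast_sum, Int.cast_sub, Int.cast_zero] at h5
    refine Eq.trans ?_ h5
    unfold Pool.Agent.TH676.Z.bd
    rw [Finset.sum_sub_distrib, Finset.sum_sub_distrib]
    congr 1 <;>
    · refine Finset.sum_congr rfl fun e _ => ?_
      split_ifs <;> simp
  · rcases h2 e with h | h | h <;> simp [h]
  · rw [← h3 e]
    have h10 : (1 : ZMod 5) ≠ 0 := by decide
    rcases h2 e with h | h | h <;> simp [h, h10]

theorem finish [Fintype V] [DecidableEq V] [Fintype E] [DecidableEq E] (src dst : E → V)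
    (h : Pool.Agent.TH676.Z.FlowOn src dst ∅ ∅) :
    (∃ f : E → ℤ, IsFlow src dst f ∧ ∀ e, 1 ≤ |f e| ∧ |f e| ≤ 4) ∧
      ∀ q : ℕ, 5 ≤ q → 0 < bondCharPoly src dst q := by
  obtain ⟨F, hF, hF0⟩ := int_flow src dst (nzf src dst h)
  have hF1 := (isFlow_iff src dst F).mpr hF0
  exact ⟨⟨F, hF1, hF⟩, fun q hq => Pool.Agent.TH362.FP.chr_pos src dst F hF hF1 q hq⟩

/-- the parity of a boundary -/
theorem odd_vertex [Fintype V] [DecidableEq V] [Fintype E] [DecidableEq E] (src dst : E → V)
    (X : Finset V) (h : (boundary src dst X).card = 3) :
    ∃ v ∈ X, Odd (boundary src dst {v}).card := by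
  classical
  by_contra hcon
  push Not at hcon
  have h1 : ∀ v ∈ X, (((boundary src dst {v}).card : ℕ) : ZMod 2) = 0 := by
    intro v hv
    rw [ZMod.natCast_eq_zero_iff_even, ← Nat.not_odd_iff_even]
    exact hcon v hv
  have h2 : ∑ v ∈ X, (((boundary src dst {v}).card : ℕ) : ZMod 2) =
      (((boundary src dst X).card : ℕ) : ZMod 2) := by
    unfold boundary
    simp only [Finset.card_filter, Nat.cast_sum, Nat.cast_ite, Nat.cast_one, Nat.cast_zero,
      Finset.mem_singleton]
    rw [Finset.sum_comm]
    refine Finset.sum_congr rfl fun e _ => ?_
    have h3 : ∀ v, (if ¬ (src e = v ↔ dst e = v) then (1 : ZMod 2) else 0) =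
        (if src e = v then (1 : ZMod 2) else 0) + (if dst e = v then (1 : ZMod 2) else 0) := by
      intro v
      by_cases a : src e = v <;> by_cases b : dst e = v <;> simp [a, b]
      decide
    rw [Finset.sum_congr rfl fun v _ => h3 v, Finset.sum_add_distrib, Finset.sum_ite_eq,
      Finset.sum_ite_eq]
    by_cases a : src e ∈ X <;> by_cases b : dst e ∈ X <;> simp [a, b]
    decide
  rw [Finset.sum_congr rfl h1, Finset.sum_const_zero, h] at h2
  revert h2
  decide

/-- the number of the edges which are not loops, twice -/
theorem sum_boundary [Fintype V] [DecidableEq V] [Fintype E] [DecidableEq E] (src dst : E → V) :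
    ∑ v, (boundary src dst {v}).card = 2 * (Finset.univ.filter (fun e => src e ≠ dst e)).card := by
  unfold boundary
  simp only [Finset.card_filter, Finset.mem_singleton]
  rw [Finset.sum_comm, Finset.mul_sum]
  refine Finset.sum_congr rfl fun e _ => ?_
  by_cases h : src e = dst e
  · simp [h]
  · have h3 : ∀ v, (if ¬ (src e = v ↔ dst e = v) then 1 else 0) =
        (if src e = v then 1 else 0) + (if dst e = v then 1 else 0) := by
      intro v
      by_cases a : src e = v <;> by_cases b : dst e = v
      · exact absurd (a.trans b.symm) h
      · simp [a, b]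
      · simp [a, b]
      · simp [a, b]
    rw [Finset.sum_congr rfl fun v _ => h3 v, Finset.sum_add_distrib, Finset.sum_ite_eq,
      Finset.sum_ite_eq]
    simp [h]

/-- cographic matroids of rank at most 68 -/
theorem odd_of_rank [Fintype V] [DecidableEq V] [Fintype E] [DecidableEq E] (src dst : E → V)
    (hb : ∀ Y : Finset V, (boundary src dst Y).card ≠ 1)
    (h : bondRank src dst (properEdges src dst) ≤ 68) :
    {v : V | Odd (boundary src dst {v}).card}.ncard ≤ 135 := by
  classical
  set O : Finset V := Finset.univ.filter (fun v => Odd (boundary src dst {v}).card) with hO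
  have hOc : {v : V | Odd (boundary src dst {v}).card}.ncard = O.card := by
    rw [← Set.ncard_coe_finset]
    congr 1
    ext v
    simp [hO]
  rw [hOc]
  set B : Finset V := Finset.univ.filter (fun v => (boundary src dst {v}).card ≠ 0) with hB
  set N : Finset E := Finset.univ.filter (fun e => src e ≠ dst e) with hN
  by_cases hne : N.Nonempty
  · obtain ⟨e0, he0⟩ := hne
    have he0' : src e0 ≠ dst e0 := (Finset.mem_filter.1 he0).2
    -- the components
    set G : SimpleGraph V := SimpleGraph.fromRel
      (fun u v : V => ∃ e ∈ (Finset.univ : Finset E), src e = u ∧ dst e = v) with hG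
    have hiso : ∀ v, v ∉ B → ∀ w, ¬ G.Adj v w := by
      intro v hv w hvw
      apply hv
      rw [hG, SimpleGraph.fromRel_adj] at hvw
      rw [hB, Finset.mem_filter]
      refine ⟨Finset.mem_univ _, ?_⟩
      rw [Finset.card_ne_zero]
      rcases hvw with ⟨hne, ⟨e, -, h1, h2⟩ | ⟨e, -, h1, h2⟩⟩
      · refine ⟨e, Finset.mem_filter.2 ⟨Finset.mem_univ _, ?_⟩⟩
        rw [Finset.mem_singleton, Finset.mem_singleton]
        exact fun h3 => hne ((h3.1 h1).symm.trans h2)
      · refine ⟨e, Finset.mem_filter.2 ⟨Finset.mem_univ _, ?_⟩⟩
        rw [Finset.mem_singleton, Finset.mem_singleton]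
        exact fun h3 => hne ((h3.2 h2).symm.trans h1)
    have hcomp : Fintype.card V + 1 ≤ B.card + components src dst Finset.univ := by
      have h1 : (insert (src e0) Bᶜ).card ≤ components src dst Finset.univ := by
        unfold components
        rw [Nat.card_eq_fintype_card, ← Finset.card_univ]
        refine Finset.card_le_card_of_injOn (fun v => G.connectedComponentMk v)
          (fun v _ => Finset.mem_coe.2 (Finset.mem_univ _)) ?_
        intro u hu v hv huv
        have hr : G.Reachable u v := SimpleGraph.ConnectedComponent.exact huv
        have key : ∀ a b, a ∉ B → G.Reachable a b → a = b := by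
          intro a b ha hab
          obtain ⟨p⟩ := hab
          cases p with
          | nil => rfl
          | cons hadj _ => exact (hiso a ha _ hadj).elim
        rw [Finset.mem_coe, Finset.mem_insert, Finset.mem_compl] at hu hv
        rcases hu with hu | hu
        · rcases hv with hv | hv
          · rw [hu, hv]
          · exact (key v u hv hr.symm).symm
        · exact key u v hu hr
      have h2 : src e0 ∉ Bᶜ := by
        rw [Finset.mem_compl, not_not, hB, Finset.mem_filter]
        refine ⟨Finset.mem_univ _, Finset.card_ne_zero.2 ⟨e0, Finset.mem_filter.2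
          ⟨Finset.mem_univ _, ?_⟩⟩⟩
        rw [Finset.mem_singleton, Finset.mem_singleton]
        exact fun h3 => he0' (h3.1 rfl).symm
      rw [Finset.card_insert_of_notMem h2] at h1
      have h3 := Finset.card_add_card_compl B
      omega
    have hle : components src dst Finset.univ ≤ Fintype.card V := by
      unfold components
      rw [Nat.card_eq_fintype_card]
      exact Fintype.card_le_of_surjective _ Quot.mk_surjective
    have hrank : N.card + components src dst Finset.univ ≤ 68 + Fintype.card V := by
      unfold bondRank cycleRank at h
      have hN' : (properEdges src dst).card = N.card := rfl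
      rw [hN'] at h
      omega
    have hs : ∑ v, (boundary src dst {v}).card = 2 * N.card := sum_boundary src dst
    have hs2 : 2 * B.card + O.card ≤ ∑ v, (boundary src dst {v}).card := by
      have h1 : 2 * B.card + O.card = ∑ v, ((if (boundary src dst {v}).card ≠ 0 then 2 else 0) +
          if Odd (boundary src dst {v}).card then 1 else 0) := by
        rw [Finset.sum_add_distrib, ← Finset.card_filter, ← Finset.sum_filter, Finset.sum_const,
          smul_eq_mul, mul_comm]
      rw [h1]
      refine Finset.sum_le_sum fun v _ => ?_
      have h2 := hb {v}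
      by_cases h3 : (boundary src dst {v}).card = 0
      · rw [h3]; simp
      · rw [if_pos h3]
        by_cases h4 : Odd (boundary src dst {v}).card
        · rw [if_pos h4]
          obtain ⟨m, hm⟩ := h4
          omega
        · rw [if_neg h4]
          omega
    omega
  · have h1 : O = ∅ := by
      rw [hO, Finset.filter_eq_empty_iff]
      intro v _ hv
      have h2 : (boundary src dst {v}).card = 0 := by
        rw [Finset.card_eq_zero]
        unfold boundary
        rw [Finset.filter_eq_empty_iff]
        intro e _ h3
        apply hne
        refine ⟨e, Finset.mem_filter.2 ⟨Finset.mem_univ _, fun h4 => h3 ?_⟩⟩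
        rw [h4]
      rw [h2] at hv
      exact absurd hv (by decide)
    rw [h1, Finset.card_empty]
    omega

/-- the flow of the quotient -/
theorem quotient_flow [Fintype V] [DecidableEq V] [Fintype E] [DecidableEq E] (src dst : E → V)
    (hb : ∀ Y : Finset V, (boundary src dst Y).card ≠ 1)
    (h : bondRank src dst (properEdges src dst) ≤ 68 ∨ (triangles src dst).ncard ≤ 135) :
    Pool.Agent.TH676.Z.FlowOn src dst ∅ ∅ := by
  have hbr : Pool.Agent.TH676.Z.Br src dst ∅ ∅ := fun Y _ => by
    rw [Finset.sdiff_empty]; exact hb Y
  have hex : ∀ (V E : Type) [Fintype V] [DecidableEq V] [Fintype E] [DecidableEq E] (s d : E → V),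
      Pool.Agent.Y358.IN.MinC s d → (∃ x y, Pool.Agent.TH676.Z.Adj s d x y) →
      136 ≤ (Finset.univ.filter (fun x => Pool.Agent.Y335.FL.dg s d x = 3)).card :=
    fun V E _ _ _ _ s d hM hex => Pool.Agent.H14.F5.cubic136 Pool.Agent.Y335.FL.contract_all
      Pool.Agent.Y335.FL.ahl hM hex
  rcases h with h | h
  · refine Pool.Agent.H14.F5.flow Pool.Agent.Y335.FL.quot' Pool.Agent.Y335.FL.contract_all 136
      hex src dst ∅ hbr (Pool.Agent.H14.F5.large_of_packing 136 src dst _ fun X hX => ?_)
    by_contra hcon
    push Not at hcon
    have h1 : ∀ i, ∃ v ∈ X i, Odd (boundary src dst {v}).card :=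
      fun i => odd_vertex src dst (X i) (hcon i).2
    choose v hv hodd using h1
    have hinj : Function.Injective v := by
      intro i j hij
      by_contra hne
      exact (Finset.disjoint_left.1 (hX i j hne)) (hv i) (by rw [hij]; exact hv j)
    have h2 : Set.range v ⊆ {v : V | Odd (boundary src dst {v}).card} := by
      rintro _ ⟨i, rfl⟩
      exact hodd i
    have h3 := Set.ncard_le_ncard h2 (Set.toFinite _)
    have h4 := odd_of_rank src dst hb h
    rw [← Set.image_univ, Set.ncard_image_of_injective _ hinj, Set.ncard_univ,
      Nat.card_eq_fintype_card, Fintype.card_fin] at h3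
    omega
  · exact Pool.Agent.H14.F5.Tri.flowD Pool.Agent.Y335.FL.quot' Pool.Agent.Y335.FL.contract_all 136
      hex src dst ∅ hbr (Pool.Agent.H14.F5.Tri.largeD_of_few 136 src dst
        (Nat.lt_succ_of_le h))

/-- Let `src dst : E → V` be a bridgeless multigraph, let `C` be a chain of cycles each of which has at
most eleven edges outside of the union of the earlier ones (for instance the empty chain), and let `r`
identify only vertices which are joined in the union of the chain (for instance the identity, or the
map to the components, which gives `G / F`).  If the bond matroid of the quotient without its loops has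
rank at most 68 or at most 135 circuits with three elements then the graph has a nowhere-zero 5-flow,
and the characteristic polynomial of its bond matroid is positive at all integers `q ≥ 5`. -/
theorem result :
    ∀ (V E W : Type) [Fintype V] [DecidableEq V] [Fintype E] [DecidableEq E] [Fintype W]
      [DecidableEq W] (src dst : E → V) (m : ℕ) (C : Fin m → Finset E),
      (∀ i, IsCycle src dst (C i)) →
      (∀ i, (C i \ (Finset.univ.filter (fun j => j < i)).biUnion C).card ≤ 11) →
      ∀ r : V → W, JoinedIn src dst (Finset.univ.biUnion C) r →
      (bondRank (r ∘ src) (r ∘ dst) (properEdges (r ∘ src) (r ∘ dst)) ≤ 68 ∨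
        (triangles (r ∘ src) (r ∘ dst)).ncard ≤ 135) →
      (∀ Y : Finset V, (boundary src dst Y).card ≠ 1) →
      (∃ f : E → ℤ, IsFlow src dst f ∧ ∀ e, 1 ≤ |f e| ∧ |f e| ≤ 4) ∧
      ∀ q : ℕ, 5 ≤ q → 0 < bondCharPoly src dst q := by
  intro V E W _ _ _ _ _ _ src dst m C hC hnew r hr h hb
  exact finish src dst (Pool.Agent.Helper335.Rel.relative src dst m C
    (fun i => mod5 src dst (C i) (hC i)) hnew r hr
    (quotient_flow (r ∘ src) (r ∘ dst) (Pool.Agent.Helper335.Rel.br_quot src dst r hb) h))

end Pool.Agent.Results.MP_974d84_co.CographicRank68
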