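import Mathlib
import Pool.Graph.R_seed8.TH497.PW.IntFlow
import Pool.Graph.R_seed8.TH362.FP.Pos
import Pool.Graph.R_seed8.Helper335.Rel.Main
import Pool.Agent.H14.F5.Outside

set_option autoImplicit false

/-!
# Nowhere-zero 5-flows in graphs of Euler genus at most 35 (MP_974d84_co)

Let `G` be a bridgeless multigraph which is embedded in a surface of Euler genus at most 35 (for
instance in an orientable surface of genus at most 17).  Then `G` has a nowhere-zero 5-flow, and the
characteristic polynomial of its bond matroid is positive at all integers `q ≥ 5`.  The order, the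
connectivity and the degrees of `G` are not bounded.  (The library has Euler genus 33, the limit of the
bound 126, the order of the 12-cage, for a smallest counterexample.)

More generally let `c_1, ..., c_k` be vertices and `s_1, ..., s_k` natural numbers, let `S` be a set of
vertices each of which has distance at most `s_i` from some `c_i`, and suppose that `G - S` satisfies
MacLane's condition with defect `h` (for an embedding in a surface of Euler genus `h` the boundaries
of the faces show this).  If `W = ∑ (2 ^ (s_i + 2) - 1) ≤ 63` and `63 h + 34 W ≤ 2267` then `G` has a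
nowhere-zero 5-flow.  The weights of balls of radius 0, 1, 2, 3, 4 are 3, 7, 15, 31, 63; so after the
deletion of one vertex, or of vertices in a ball of radius 1, 2, 3, 4, Euler genus 34, 32, 27, 19, 1 is
possible (in the library: 31, 29, 25, 17, 1).  It is also sufficient that the graph `G / F` satisfies
the condition, where `F` is the union of a chain of cycles each of which has at most eleven edges
outside the union of the earlier ones.

Proof.  The class is closed under contractions, because distances do not increase, so a minimal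
counterexample `G` has girth at least twelve and all degrees at least three, apart from isolated
vertices (libraries `Y335/FL` and `Y358/IN`), and it has at least 136 vertices of degree three by
`H14/F5/Main.lean`: a cubic graph of girth twelve with at most 134 vertices becomes bipartite by the
deletion of eight vertices and is cyclically 9-edge-connected, so that it has a nowhere-zero 5-flow
by the library theorem `OddCircuitTransversals`.  So the number `X` of the edges is at least 204.
Let `x_j` be the number of edges leaving the ball of radius `j` around `c`.  Then `x_{j+1} ≥ 2 x_j`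
for `j ≤ 4`, these sets of edges are disjoint, and `x_0 + ... + x_s` edges have an end in the ball of
radius `s ≤ 4`.  Hence if `e` edges leave the union `T` of the balls and `t` edges have an end in `T`
then `63 (2 e + t) ≤ W X`.  For the `m = X - t` edges and the `n` vertices outside of `T` we have
`3 n ≤ 2 m + e` and, counting faces with at least twelve edges, `6 (m + 2 - h - n) ≤ m`.  Together
with `X ≥ 204` this is a contradiction.  (This part is the proof of the library, `Q287/FL/Around`.)
-/

namespace Pool.Agent.Results.MP_974d84_co.EulerGenus35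

variable {V E W : Type}

/-- The edges with exactly one end in `Y`. -/
def boundary [DecidableEq V] [Fintype E] (src dst : E → V) (Y : Finset V) : Finset E :=
  Finset.univ.filter (fun e => ¬ (src e ∈ Y ↔ dst e ∈ Y))

/-- Kirchhoff's law. -/
def IsFlow [DecidableEq V] [Fintype E] (src dst : E → V) (f : E → ℤ) : Prop :=
  ∀ v : V, ∑ e ∈ Finset.univ.filter (fun e => src e = v), f e
    = ∑ e ∈ Finset.univ.filter (fun e => dst e = v), f e

/-- `C` is a cycle: the support of an integer flow with the values `0`, `1` and `-1`. -/
def IsCycle [DecidableEq V] [Fintype E] (src dst : E → V) (C : Finset E) : Prop :=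
  ∃ z : E → ℤ, IsFlow src dst z ∧ (∀ e, z e = 0 ∨ z e = 1 ∨ z e = -1) ∧ ∀ e, z e ≠ 0 ↔ e ∈ C

/-- The map `r` identifies only vertices which are joined by a path with edges in `F`; if `r` is
the map to the components of the graph `(V, F)` then `r ∘ src`, `r ∘ dst` is the graph `G / F` (with
the edges in `F` as loops). -/
def JoinedIn (src dst : E → V) (F : Finset E) (r : V → W) : Prop :=
  ∀ x y, r x = r y → (SimpleGraph.fromRel
    (fun u v : V => ∃ e ∈ F, src e = u ∧ dst e = v)).Reachable x y

/-- The number of the connected components of the graph with the vertices `V` and the edges `A`. -/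
noncomputable def components (src dst : E → V) (A : Finset E) : ℕ :=
  Nat.card (SimpleGraph.fromRel
    (fun u v : V => ∃ e ∈ A, src e = u ∧ dst e = v)).ConnectedComponent

/-- The rank of `A` in the cycle matroid of the graph. -/
noncomputable def cycleRank [Fintype V] (src dst : E → V) (A : Finset E) : ℕ :=
  Fintype.card V - components src dst A

/-- The rank of `A` in the bond matroid of the graph, the dual of the cycle matroid:
`|A| + r(E \ A) - r(E)`. -/
noncomputable def bondRank [Fintype V] [Fintype E] [DecidableEq E] (src dst : E → V)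
    (A : Finset E) : ℕ :=
  A.card + cycleRank src dst Aᶜ - cycleRank src dst Finset.univ

/-- The characteristic polynomial of the bond matroid at the integer `x`,
`∑ (-1)^|A| x^(r*(E) - r*(A))`. -/
noncomputable def bondCharPoly [Fintype V] [Fintype E] [DecidableEq E] (src dst : E → V)
    (x : ℤ) : ℤ :=
  ∑ A : Finset E, (-1) ^ A.card * x ^ (bondRank src dst Finset.univ - bondRank src dst A)

theorem isFlow_iff [DecidableEq V] [Fintype E] (src dst : E → V) (f : E → ℤ) :
    IsFlow src dst f ↔
      ∀ v, ∑ e, f e * ((if src e = v then 1 else 0) - (if dst e = v then 1 else 0)) = 0 := by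
  unfold IsFlow
  refine forall_congr' fun v => ?_
  rw [Finset.sum_filter, Finset.sum_filter, ← sub_eq_zero, ← Finset.sum_sub_distrib]
  have : ∀ e, (if src e = v then f e else 0) - (if dst e = v then f e else 0)
      = f e * ((if src e = v then 1 else 0) - (if dst e = v then 1 else 0)) := by
    intro e
    by_cases h1 : src e = v <;> by_cases h2 : dst e = v <;> simp [h1, h2]
  rw [Finset.sum_congr rfl (fun e _ => this e)]

theorem nzf [Fintype V] [DecidableEq V] [Fintype E] [DecidableEq E] (src dst : E → V)
    (h : Pool.Agent.TH676.Z.FlowOn src dst ∅ ∅) : Pool.Agent.TH497.PW.NZF src dst := by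
  obtain ⟨f, h1, _, h3⟩ := h
  refine ⟨f, fun e => h3 e (Finset.notMem_empty _) (Finset.notMem_empty _), fun x => ?_⟩
  rw [← h1 x]
  unfold Pool.Agent.TH676.Z.bd
  refine Finset.sum_congr rfl fun e _ => ?_
  unfold Pool.Agent.TH497.PW.ic
  by_cases h4 : src e = x <;> by_cases h5 : dst e = x <;> simp [h4, h5]

/-- the reduction modulo five of a flow with values in `{0, 1, -1}` -/
theorem mod5 [Fintype V] [DecidableEq V] [Fintype E] [DecidableEq E] (src dst : E → V)
    (C : Finset E) (h : IsCycle src dst C) :
    ∃ z : E → ZMod 5, (∀ v, Pool.Agent.TH676.Z.bd src dst z v = 0) ∧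
      (∀ e, z e = 0 ∨ z e = 1 ∨ z e = -1) ∧ ∀ e, z e ≠ 0 ↔ e ∈ C := by
  obtain ⟨z, h1, h2, h3⟩ := h
  refine ⟨fun e => ((z e : ℤ) : ZMod 5), fun v => ?_, fun e => ?_, fun e => ?_⟩
  · have h4 := h1 v
    rw [Finset.sum_filter, Finset.sum_filter, ← sub_eq_zero, ← Finset.sum_sub_distrib] at h4
    have h5 := congrArg (fun t : ℤ => (t : ZMod 5)) h4
    simp only [Int.cast_sum, Int.cast_sub, Int.cast_zero] at h5
    refine Eq.trans ?_ h5
    unfold Pool.Agent.TH676.Z.bd
    rw [Finset.sum_sub_distrib, Finset.sum_sub_distrib]
    congr 1 <;>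
    · refine Finset.sum_congr rfl fun e _ => ?_
      split_ifs <;> simp
  · rcases h2 e with h | h | h <;> simp [h]
  · rw [← h3 e]
    have h10 : (1 : ZMod 5) ≠ 0 := by decide
    rcases h2 e with h | h | h <;> simp [h, h10]

theorem finish [Fintype V] [DecidableEq V] [Fintype E] [DecidableEq E] (src dst : E → V)
    (h : Pool.Agent.TH676.Z.FlowOn src dst ∅ ∅) :
    (∃ f : E → ℤ, IsFlow src dst f ∧ ∀ e, 1 ≤ |f e| ∧ |f e| ≤ 4) ∧
      ∀ q : ℕ, 5 ≤ q → 0 < bondCharPoly src dst q := by
  obtain ⟨F, hF, hF0⟩ := Pool.Agent.TH497.PW.int_flow src dst (nzf src dst h)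
  have hF1 := (isFlow_iff src dst F).mpr hF0
  exact ⟨⟨F, hF1, hF⟩, fun q hq => Pool.Agent.TH362.FP.chr_pos src dst F hF hF1 q hq⟩

/-- The vertex `v` has distance at most `s` from `c`: there is a walk from `c` to `v` with at most `s`
edges. -/
def InBall (src dst : E → V) (c : V) (s : ℕ) (v : V) : Prop :=
  ∃ p : (SimpleGraph.fromRel (fun u w : V => ∃ e, src e = u ∧ dst e = w)).Walk c v, p.length ≤ s

/-- The cycle space over `GF(2)` of the graph without the loops and without the vertices in `S`: the
functions on the edges which are zero on the loops and on the edges with an end in `S` and which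
satisfy Kirchhoff's law modulo 2. -/
def cycleSpace [DecidableEq V] [Fintype E] (src dst : E → V) (S : Finset V) :
    Submodule (ZMod 2) (E → ZMod 2) where
  carrier := {x | (∀ e, (src e = dst e ∨ src e ∈ S ∨ dst e ∈ S) → x e = 0) ∧
    ∀ v : V, ∑ e ∈ Finset.univ.filter (fun e => src e = v), x e
      + ∑ e ∈ Finset.univ.filter (fun e => dst e = v), x e = 0}
  add_mem' := by
    rintro a b ⟨h1, h2⟩ ⟨h3, h4⟩
    refine ⟨fun e he => by rw [Pi.add_apply, h1 e he, h3 e he, add_zero], fun v => ?_⟩
    simp only [Pi.add_apply, Finset.sum_add_distrib]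
    have := congrArg₂ (· + ·) (h2 v) (h4 v)
    simp only [add_zero] at this
    rw [← this]
    ring
  zero_mem' := ⟨fun _ _ => rfl, fun v => by simp⟩
  smul_mem' := by
    rintro c a ⟨h1, h2⟩
    refine ⟨fun e he => by rw [Pi.smul_apply, h1 e he, smul_zero], fun v => ?_⟩
    simp only [Pi.smul_apply, smul_eq_mul, ← Finset.mul_sum]
    rw [← mul_add, h2 v, mul_zero]

/-- MacLane's condition with defect `h` for the graph without the loops and without the vertices in
`S`: there is a finite family of elements of the cycle space such that every edge is in at most two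
of them and the dimension of the cycle space is at most the dimension of their span plus `h`. -/
def MacLaneDefect [DecidableEq V] [Fintype E] (src dst : E → V) (S : Finset V) (h : ℕ) : Prop :=
  ∃ (k : ℕ) (K : Fin k → E → ZMod 2), (∀ i, K i ∈ cycleSpace src dst S) ∧
    (∀ e, (Finset.univ.filter (fun i => K i e ≠ 0)).card ≤ 2) ∧
    Module.finrank (ZMod 2) (cycleSpace src dst S) ≤
      Module.finrank (ZMod 2) (Submodule.span (ZMod 2) (Set.range K)) + h

theorem cycleSpace_eq [Fintype V] [DecidableEq V] [Fintype E] [DecidableEq E] (src dst : E → V)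
    (S : Finset V) : cycleSpace src dst S =
      Pool.Agent.TH676.Z.ZF src dst (Pool.Agent.TH676.Z.ES src dst S) := by
  ext x
  have h2 : ∀ v, Pool.Agent.TH676.Z.bd2 src dst x v =
      ∑ e ∈ Finset.univ.filter (fun e => src e = v), x e
        + ∑ e ∈ Finset.univ.filter (fun e => dst e = v), x e := by
    intro v
    unfold Pool.Agent.TH676.Z.bd2
    rw [Finset.sum_add_distrib, Finset.sum_filter, Finset.sum_filter]
  constructor
  · rintro ⟨h, h'⟩
    refine ⟨fun e he => h e ?_, fun v => by rw [h2 v]; exact h' v⟩
    by_contra hc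
    push Not at hc
    exact he (Finset.mem_filter.mpr ⟨Finset.mem_univ _, hc⟩)
  · rintro ⟨h, h'⟩
    refine ⟨fun e he => h e ?_, fun v => by rw [← h2 v]; exact h' v⟩
    intro hc
    have h3 := (Finset.mem_filter.mp hc).2
    rcases he with he | he | he
    · exact h3.1 he
    · exact h3.2.1 he
    · exact h3.2.2 he

theorem inBall_mem [Fintype V] [DecidableEq V] [Fintype E] [DecidableEq E] {src dst : E → V}
    {c : V} {s : ℕ} {v : V} (h : InBall src dst c s v) :
    v ∈ Pool.Agent.Y335.FL.Edge62.Bl src dst c s := by
  obtain ⟨p, hp⟩ := h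
  have key : ∀ (a b : V) (q : (SimpleGraph.fromRel
      (fun u w : V => ∃ e, src e = u ∧ dst e = w)).Walk a b) (m : ℕ),
      a ∈ Pool.Agent.Y335.FL.Edge62.Bl src dst c m →
      b ∈ Pool.Agent.Y335.FL.Edge62.Bl src dst c (m + q.length) := by
    intro a b q
    induction q with
    | nil => intro m h; simpa using h
    | cons hab q ih =>
      intro m h
      have h1 := ih (m + 1) (Pool.Agent.Y335.FL.Edge62.mem_Bl_succ.2 (Or.inr ⟨_, h, by
        rw [SimpleGraph.fromRel_adj] at hab
        obtain ⟨hne, ⟨e, h2, h3⟩ | ⟨e, h2, h3⟩⟩ := hab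
        · exact ⟨hne, e, Or.inl ⟨h2, h3⟩⟩
        · exact ⟨hne, e, Or.inr ⟨h2, h3⟩⟩⟩))
      rw [SimpleGraph.Walk.length_cons]
      rwa [add_assoc, add_comm 1] at h1
  have h1 := key c v p 0 (Finset.mem_singleton_self c)
  rw [zero_add] at h1
  exact Pool.Agent.Y335.FL.Edge62.Bl_mono hp h1

theorem result :
    ∀ (V E W : Type) [Fintype V] [DecidableEq V] [Fintype E] [DecidableEq E] [Fintype W]
      [DecidableEq W] (src dst : E → V) (m : ℕ) (C : Fin m → Finset E),
      (∀ i, IsCycle src dst (C i)) →
      (∀ i, (C i \ (Finset.univ.filter (fun j => j < i)).biUnion C).card ≤ 11) →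
      ∀ r : V → W, JoinedIn src dst (Finset.univ.biUnion C) r →
      ∀ (k : ℕ) (c : Fin k → W) (s : Fin k → ℕ) (S : Finset W) (h : ℕ),
      (∀ w ∈ S, ∃ i, InBall (r ∘ src) (r ∘ dst) (c i) (s i) w) →
      63 * h + 34 * ∑ i, (2 ^ (s i + 2) - 1) ≤ 2267 → ∑ i, (2 ^ (s i + 2) - 1) ≤ 63 →
      MacLaneDefect (r ∘ src) (r ∘ dst) S h →
      (∀ Y : Finset V, (boundary src dst Y).card ≠ 1) →
      (∃ f : E → ℤ, IsFlow src dst f ∧ ∀ e, 1 ≤ |f e| ∧ |f e| ≤ 4) ∧
      ∀ q : ℕ, 5 ≤ q → 0 < bondCharPoly src dst q := by
  intro V E W _ _ _ _ _ _ src dst m C hC hnew r hr k c s S h hS hW hW1 hM hb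
  have hM1 : Pool.Agent.TH676.Z.Mac h (r ∘ src) (r ∘ dst)
      (Pool.Agent.TH676.Z.ES (r ∘ src) (r ∘ dst) S) := by
    obtain ⟨l, K, h1, h2, h3⟩ := hM
    rw [cycleSpace_eq] at h3
    exact ⟨l, K, fun i => by rw [← cycleSpace_eq]; exact h1 i, h2, h3⟩
  exact finish src dst (Pool.Agent.Helper335.Rel.relative src dst m C
    (fun i => mod5 src dst (C i) (hC i)) hnew r hr
    (Pool.Agent.H14.F5.Outside.surfaces s h hW hW1 (r ∘ src) (r ∘ dst)
      ⟨c, S, fun v hv => (hS v hv).imp fun i hi => inBall_mem hi, hM1⟩
      (fun Y _ => by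
        rw [Finset.sdiff_empty]
        exact Pool.Agent.Helper335.Rel.br_quot src dst r hb Y)))

/-- The case without balls and cycles: Euler genus at most 35. -/
theorem genus35 (V E : Type) [Fintype V] [DecidableEq V] [Fintype E] [DecidableEq E]
    (src dst : E → V) (hM : MacLaneDefect src dst ∅ 35)
    (hb : ∀ Y : Finset V, (boundary src dst Y).card ≠ 1) :
    ∃ f : E → ℤ, IsFlow src dst f ∧ ∀ e, 1 ≤ |f e| ∧ |f e| ≤ 4 :=
  (result V E V src dst 0 (fun _ => ∅) (fun i => i.elim0) (fun i => i.elim0) id
    (fun x y h => by rw [show x = y from h]) 0 (fun i => i.elim0) (fun i => i.elim0) ∅ 35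
    (fun v hv => absurd hv (Finset.notMem_empty v)) (by simp) (by simp) hM hb).1

end Pool.Agent.Results.MP_974d84_co.EulerGenus35
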